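import Mathlib

set_option autoImplicit false

open Complex Metric Set Filter Topology Asymptotics ContDiff

namespace Pool.Agent.Results.MP_63facb_an.EggTangentialSequence

/-- `ℂⁿ` with its Euclidean norm. -/
abbrev Cn (n : ℕ) : Type := EuclideanSpace ℂ (Fin n)

/-- `F` is a holomorphic embedding of the open set `D` into `ℂⁿ`: it is holomorphic on `D`, an
immersion, and a homeomorphism of `D` onto its image. -/
structure IsHolEmbedding {n : ℕ} (D : Set (Cn n)) (F : Cn n → Cn n) : Prop where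
  holo : DifferentiableOn ℂ F D
  immersion : ∀ x ∈ D, Function.Injective (fderiv ℂ F x)
  embedding : IsEmbedding (fun x : D => F x)

/-- The squeezing function of `D`: the supremum of the radii `r > 0` such that the ball
`B(0, r)` lies in `F(D)` for some holomorphic embedding `F : D → B(0, 1)` with `F(z) = 0`. -/
noncomputable def squeezing {n : ℕ} (D : Set (Cn n)) (z : Cn n) : ℝ :=
  sSup {r : ℝ | 0 < r ∧ ∃ F : Cn n → Cn n, IsHolEmbedding D F ∧ MapsTo F D (ball 0 1) ∧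
    F z = 0 ∧ ball 0 r ⊆ F '' D}

/-- `ρ` is a `C^∞` local defining function of `D` on the open neighbourhood `U` of `p`. -/
structure IsLocalDef {n : ℕ} (D : Set (Cn n)) (p : Cn n) (U : Set (Cn n)) (ρ : Cn n → ℝ) :
    Prop where
  isOpen : IsOpen U
  mem : p ∈ U
  smooth : ContDiffOn ℝ ∞ ρ U
  inside : ∀ x ∈ U, x ∈ D ↔ ρ x < 0
  grad : ∀ x ∈ U, ρ x = 0 → fderiv ℝ ρ x ≠ 0

/-- The value at `v` of the Levi form (complex Hessian) of `ρ` at `q`, that is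
`∑ ρ_{j k̄}(q) v_j v̄_k`, a quarter of the Laplacian of `ζ ↦ ρ(q + ζ v)` at `0`. -/
noncomputable def levi {n : ℕ} (ρ : Cn n → ℝ) (q v : Cn n) : ℝ :=
  (iteratedDeriv 2 (fun t : ℝ => ρ (q + (t : ℂ) • v)) 0 +
    iteratedDeriv 2 (fun t : ℝ => ρ (q + ((t : ℂ) * I) • v)) 0) / 4

/-- `v` is in the complex tangent space at `q` of the level set of `ρ` through `q`. -/
def CTangent {n : ℕ} (ρ : Cn n → ℝ) (q v : Cn n) : Prop :=
  fderiv ℝ ρ q v = 0 ∧ fderiv ℝ ρ q (I • v) = 0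

/-- The hypersurface `{ρ = 0}` is Levi-pseudoconvex at all its points in `U`. -/
def LeviPseudoconvexOn {n : ℕ} (ρ : Cn n → ℝ) (U : Set (Cn n)) : Prop :=
  ∀ q ∈ U, ρ q = 0 → ∀ v, CTangent ρ q v → 0 ≤ levi ρ q v

/-- The hypersurface `{ρ = 0}` has finite D'Angelo type at `q`: the orders of vanishing at `0` of
`ρ ∘ γ`, for nonconstant germs `γ` at `0` of holomorphic curves with `γ(0) = q`, are bounded by a
constant times the multiplicity of `γ`, the order of vanishing of `γ - q`. -/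
def FiniteType {n : ℕ} (ρ : Cn n → ℝ) (q : Cn n) : Prop :=
  ∃ C : ℕ, ∀ γ : ℂ → Cn n, AnalyticAt ℂ γ 0 → γ 0 = q →
    analyticOrderAt (fun ζ => γ ζ - q) 0 ≠ ⊤ →
    ∀ k : ℕ, (fun ζ => ρ (γ ζ)) =O[𝓝 0] (fun ζ => ‖ζ‖ ^ k) →
      (k : ℕ∞) ≤ C * analyticOrderAt (fun ζ => γ ζ - q) 0

/-- Case (A) of the definition of an admissible pair. -/
def CaseA {n : ℕ} (D : Set (Cn n)) (p : Cn n) : Prop :=
  n = 2 ∧ ∃ U ρ, IsLocalDef D p U ρ ∧ LeviPseudoconvexOn ρ U ∧ FiniteType ρ p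

/-- Case (B) of the definition of an admissible pair. -/
def CaseB {n : ℕ} (D : Set (Cn n)) (p : Cn n) : Prop :=
  2 ≤ n ∧ ∃ U ρ, IsLocalDef D p U ρ ∧ LeviPseudoconvexOn ρ U ∧
    (∀ q ∈ U, ρ q = 0 → FiniteType ρ q) ∧
    ∃ W : Submodule ℂ (Cn n), Module.finrank ℂ W = n - 2 ∧
      ∀ v ∈ W, CTangent ρ p v ∧ (v ≠ 0 → 0 < levi ρ p v)

/-- Case (C) of the definition of an admissible pair. -/
def CaseC {n : ℕ} (D : Set (Cn n)) (p : Cn n) : Prop :=
  2 ≤ n ∧ Convex ℝ D ∧ ∃ U ρ, IsLocalDef D p U ρ ∧ ∀ q ∈ U, ρ q = 0 → FiniteType ρ q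

/-- The boundary of `D` is strongly Levi pseudoconvex at `p`. -/
def StronglyPseudoconvexAt {n : ℕ} (D : Set (Cn n)) (p : Cn n) : Prop :=
  ∃ U ρ, IsLocalDef D p U ρ ∧ ∀ v, v ≠ 0 → CTangent ρ p v → 0 < levi ρ p v

/-! ### The egg -/

/-- the defining function -/
noncomputable def rho (x : Cn 2) : ℝ := ‖x 0‖ ^ 2 + ‖x 1‖ ^ 4 - 1

/-- the egg -/
def Egg : Set (Cn 2) := {x | rho x < 0}

/-- the boundary point `(1, 0)` -/
noncomputable def pt : Cn 2 := !₂[1, 0]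

theorem rho_smooth : ContDiff ℝ ∞ rho := by
  have h : ∀ i : Fin 2, ContDiff ℝ ∞ (fun x : Cn 2 => x i) := fun i =>
    ((EuclideanSpace.proj (𝕜 := ℂ) i : Cn 2 →L[ℂ] ℂ).restrictScalars ℝ).contDiff
  have h4 : ContDiff ℝ ∞ (fun x : Cn 2 => ‖x 1‖ ^ 4) := by
    have : (fun x : Cn 2 => ‖x 1‖ ^ 4) = fun x : Cn 2 => (‖x 1‖ ^ 2) ^ 2 := by
      funext x; ring
    rw [this]
    exact ((h 1).norm_sq ℝ).pow 2
  exact ((((h 0).norm_sq ℝ).add h4).sub contDiff_const)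

theorem isOpen_egg : IsOpen Egg :=
  isOpen_lt rho_smooth.continuous continuous_const

theorem convex_egg : Convex ℝ Egg := by
  have h : ∀ i : Fin 2, ConvexOn ℝ univ (fun x : Cn 2 => ‖x i‖) := fun i =>
    (convexOn_norm convex_univ).comp_linearMap
      (((EuclideanSpace.proj (𝕜 := ℂ) i : Cn 2 →L[ℂ] ℂ).restrictScalars ℝ : Cn 2 →L[ℝ] ℂ) : Cn 2 →ₗ[ℝ] ℂ)
  have h0 : ConvexOn ℝ univ (fun x : Cn 2 => ‖x 0‖ ^ 2 + ‖x 1‖ ^ 4) :=
    ((h 0).pow (fun _ _ => norm_nonneg _) 2).add ((h 1).pow (fun _ _ => norm_nonneg _) 4)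
  have := h0.convex_lt 1
  have e : Egg = {x ∈ (univ : Set (Cn 2)) | ‖x 0‖ ^ 2 + ‖x 1‖ ^ 4 < 1} := by
    ext x
    simp only [Egg, rho, mem_ofPred_eq, mem_univ, true_and]
    constructor <;> intro h <;> linarith
  rw [e]
  exact this

theorem zero_mem_egg : (0 : Cn 2) ∈ Egg := by
  change rho 0 < 0
  simp [rho]

theorem isConnected_egg : IsConnected Egg := ⟨⟨0, zero_mem_egg⟩, convex_egg.isPreconnected⟩

theorem isBounded_egg : Bornology.IsBounded Egg := by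
  rw [isBounded_iff_forall_norm_le]
  refine ⟨2, fun x hx => ?_⟩
  have hx' : ‖x 0‖ ^ 2 + ‖x 1‖ ^ 4 < 1 := by
    have : rho x < 0 := hx
    unfold rho at this; linarith
  have h1 : ‖x 1‖ ^ 2 ≤ 1 := by
    nlinarith [sq_nonneg (‖x 0‖), sq_nonneg (‖x 1‖ ^ 2), sq_nonneg (‖x 1‖)]
  have h0 : ‖x 0‖ ^ 2 ≤ 1 := by nlinarith [sq_nonneg (‖x 1‖ ^ 2)]
  have h2 : ‖x‖ ^ 2 = ‖x 0‖ ^ 2 + ‖x 1‖ ^ 2 := by
    rw [EuclideanSpace.norm_sq_eq]; simp
  nlinarith [norm_nonneg x]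


/-! ### Derivatives of the defining function -/

theorem norm_add_smul_sq (a b : ℂ) (t : ℝ) :
    ‖a + (t : ℂ) * b‖ ^ 2 = ‖a‖ ^ 2 + 2 * (a.re * b.re + a.im * b.im) * t + ‖b‖ ^ 2 * t ^ 2 := by
  rw [← Complex.normSq_eq_norm_sq, ← Complex.normSq_eq_norm_sq, ← Complex.normSq_eq_norm_sq]
  simp only [Complex.normSq_apply, Complex.add_re, Complex.add_im, Complex.mul_re, Complex.mul_im,
    Complex.ofReal_re, Complex.ofReal_im]
  ring

theorem rho_line (q v : Cn 2) (t : ℝ) :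
    rho (q + (t : ℂ) • v) = (‖q 0‖ ^ 2 + ‖q 1‖ ^ 4 - 1) +
      (2 * ((q 0).re * (v 0).re + (q 0).im * (v 0).im) +
        4 * ‖q 1‖ ^ 2 * ((q 1).re * (v 1).re + (q 1).im * (v 1).im)) * t +
      (‖v 0‖ ^ 2 + 2 * ‖q 1‖ ^ 2 * ‖v 1‖ ^ 2 +
        4 * ((q 1).re * (v 1).re + (q 1).im * (v 1).im) ^ 2) * t ^ 2 +
      (4 * ((q 1).re * (v 1).re + (q 1).im * (v 1).im) * ‖v 1‖ ^ 2) * t ^ 3 +
      (‖v 1‖ ^ 4) * t ^ 4 := by
  unfold rho
  have h0 : (q + (t : ℂ) • v) 0 = q 0 + (t : ℂ) * v 0 := rfl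
  have h1 : (q + (t : ℂ) • v) 1 = q 1 + (t : ℂ) * v 1 := rfl
  rw [h0, h1, norm_add_smul_sq, show ‖q 1 + (t : ℂ) * v 1‖ ^ 4 = (‖q 1 + (t : ℂ) * v 1‖ ^ 2) ^ 2 by ring,
    norm_add_smul_sq]
  ring

theorem deriv_quartic (a b c d e : ℝ) :
    deriv (fun t : ℝ => a + b * t + c * t ^ 2 + d * t ^ 3 + e * t ^ 4) =
      fun t => b + 2 * c * t + 3 * d * t ^ 2 + 4 * e * t ^ 3 := by
  funext t
  have h : HasDerivAt (fun t : ℝ => a + b * t + c * t ^ 2 + d * t ^ 3 + e * t ^ 4)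
      (0 + b * 1 + c * ((2 : ℕ) * t ^ 1) + d * ((3 : ℕ) * t ^ 2) + e * ((4 : ℕ) * t ^ 3)) t :=
    (((((hasDerivAt_const t a).add ((hasDerivAt_id t).const_mul b)).add
      ((hasDerivAt_pow 2 t).const_mul c)).add ((hasDerivAt_pow 3 t).const_mul d)).add
      ((hasDerivAt_pow 4 t).const_mul e))
  rw [h.deriv]
  push_cast
  ring

theorem iteratedDeriv_quartic (a b c d e : ℝ) :
    iteratedDeriv 2 (fun t : ℝ => a + b * t + c * t ^ 2 + d * t ^ 3 + e * t ^ 4) 0 = 2 * c := by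
  rw [iteratedDeriv_succ, iteratedDeriv_one, deriv_quartic]
  have h : HasDerivAt (fun t : ℝ => b + 2 * c * t + 3 * d * t ^ 2 + 4 * e * t ^ 3)
      (0 + 2 * c * 1 + 3 * d * ((2 : ℕ) * (0 : ℝ) ^ 1) + 4 * e * ((3 : ℕ) * (0 : ℝ) ^ 2)) 0 :=
    ((((hasDerivAt_const (0 : ℝ) b).add ((hasDerivAt_id (0 : ℝ)).const_mul (2 * c))).add
      ((hasDerivAt_pow 2 (0 : ℝ)).const_mul (3 * d))).add
      ((hasDerivAt_pow 3 (0 : ℝ)).const_mul (4 * e)))
  rw [h.deriv]
  ring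

theorem second_rho (q v : Cn 2) :
    iteratedDeriv 2 (fun t : ℝ => rho (q + (t : ℂ) • v)) 0 =
      2 * (‖v 0‖ ^ 2 + 2 * ‖q 1‖ ^ 2 * ‖v 1‖ ^ 2 +
        4 * ((q 1).re * (v 1).re + (q 1).im * (v 1).im) ^ 2) := by
  have : (fun t : ℝ => rho (q + (t : ℂ) • v)) = _ := funext fun t => rho_line q v t
  rw [this, iteratedDeriv_quartic]

theorem levi_rho_nonneg (q v : Cn 2) : 0 ≤ levi rho q v := by
  unfold levi
  have h : (fun t : ℝ => rho (q + ((t : ℂ) * I) • v)) = fun t : ℝ => rho (q + (t : ℂ) • (I • v)) := by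
    funext t
    rw [smul_smul]
  rw [h, second_rho, second_rho]
  positivity

theorem grad_rho (q : Cn 2) (hq : rho q = 0) : fderiv ℝ rho q ≠ 0 := by
  intro h0
  have hd : HasFDerivAt rho (fderiv ℝ rho q) (q + ((0 : ℝ) : ℂ) • q) := by
    have : q + ((0 : ℝ) : ℂ) • q = q := by simp
    rw [this]
    exact (rho_smooth.differentiable (by simp)).differentiableAt.hasFDerivAt
  have hl : HasDerivAt (fun t : ℝ => q + (t : ℂ) • q) ((1 : ℂ) • q) 0 := by
    have := ((Complex.ofRealCLM.hasDerivAt (x := (0 : ℝ))).smul_const q).const_add q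
    simpa using this
  have h1 := hd.comp_hasDerivAt 0 hl
  rw [h0] at h1
  have h2 : deriv (fun t : ℝ => rho (q + (t : ℂ) • q)) 0 = 0 := by
    have := h1.deriv
    simpa [Function.comp_def] using this
  have h3 : (fun t : ℝ => rho (q + (t : ℂ) • q)) = _ := funext fun t => rho_line q q t
  rw [h3, deriv_quartic] at h2
  have h4 : ‖q 0‖ ^ 2 = (q 0).re * (q 0).re + (q 0).im * (q 0).im := by
    rw [← Complex.normSq_eq_norm_sq, Complex.normSq_apply]
  have h5 : ‖q 1‖ ^ 2 = (q 1).re * (q 1).re + (q 1).im * (q 1).im := by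
    rw [← Complex.normSq_eq_norm_sq, Complex.normSq_apply]
  have h6 : ‖q 0‖ ^ 2 + ‖q 1‖ ^ 4 = 1 := by unfold rho at hq; linarith
  simp only [ne_eq, OfNat.ofNat_ne_zero, not_false_eq_true, zero_pow, mul_zero, add_zero] at h2
  rw [← h4, ← h5] at h2
  have h7 : ‖q 1‖ ^ 4 = ‖q 1‖ ^ 2 * ‖q 1‖ ^ 2 := by ring
  nlinarith [sq_nonneg (‖q 1‖ ^ 2), sq_nonneg ‖q 0‖]

theorem isLocalDef_rho (p : Cn 2) : IsLocalDef Egg p univ rho :=
  ⟨isOpen_univ, mem_univ _, rho_smooth.contDiffOn, fun _ _ => Iff.rfl, fun x _ hx => grad_rho x hx⟩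

theorem pt_frontier : pt ∈ frontier Egg := by
  rw [isOpen_egg.frontier_eq]
  refine ⟨?_, ?_⟩
  · rw [Metric.mem_closure_iff]
    intro ε hε
    refine ⟨((1 - min (ε / 2) (1 / 2) : ℝ) : ℂ) • pt, ?_, ?_⟩
    · change rho _ < 0
      have h1 : 0 < min (ε / 2) (1 / 2) := lt_min (by linarith) (by norm_num)
      have h2 : min (ε / 2) (1 / 2) ≤ 1 / 2 := min_le_right _ _
      have e0 : (((1 - min (ε / 2) (1 / 2) : ℝ) : ℂ) • pt) 0 = ((1 - min (ε / 2) (1 / 2) : ℝ) : ℂ) := by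
        simp [pt]
      have e1 : (((1 - min (ε / 2) (1 / 2) : ℝ) : ℂ) • pt) 1 = 0 := by simp [pt]
      unfold rho
      rw [e0, e1, Complex.norm_real, Real.norm_eq_abs, sq_abs]
      simp only [norm_zero, ne_eq, OfNat.ofNat_ne_zero, not_false_eq_true, zero_pow, add_zero]
      nlinarith
    · have h1 : 0 < min (ε / 2) (1 / 2) := lt_min (by linarith) (by norm_num)
      have h2 : min (ε / 2) (1 / 2) ≤ ε / 2 := min_le_left _ _
      have hn : ‖pt‖ = 1 := by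
        rw [EuclideanSpace.norm_eq]; simp [pt]
      have : pt - ((1 - min (ε / 2) (1 / 2) : ℝ) : ℂ) • pt = ((min (ε / 2) (1 / 2) : ℝ) : ℂ) • pt := by
        rw [Complex.ofReal_sub, Complex.ofReal_one, sub_smul, one_smul]
        abel
      rw [dist_eq_norm, this, norm_smul, hn, Complex.norm_real, Real.norm_eq_abs, abs_of_pos h1]
      linarith
  · intro h
    have : rho pt < 0 := h
    simp [rho, pt] at this

/-! ### The point `(1, 0)` is not strongly pseudoconvex -/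

theorem two_le : (2 : WithTop ℕ∞) ≤ ∞ := WithTop.coe_le_coe.2 (le_top : (2 : ℕ∞) ≤ ⊤)

theorem second_le_zero {g : ℝ → ℝ} (hg : ContDiffAt ℝ 2 g 0) (h0 : g 0 = 0) (K : ℝ)
    (hK : ∀ᶠ t in 𝓝 (0 : ℝ), g t ≤ K * t ^ 4) :
    deriv g 0 = 0 ∧ iteratedDeriv 2 g 0 ≤ 0 := by
  have hq : ContDiff ℝ ∞ (fun t : ℝ => K * t ^ 4) := by fun_prop
  have hq2 : ContDiffAt ℝ 2 (fun t : ℝ => K * t ^ 4) 0 := (hq.of_le two_le).contDiffAt
  have hqd : deriv (fun t : ℝ => K * t ^ 4) 0 = 0 := by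
    have h : HasDerivAt (fun t : ℝ => K * t ^ 4) (K * ((4 : ℕ) * (0 : ℝ) ^ 3)) 0 :=
      (hasDerivAt_pow 4 (0 : ℝ)).const_mul K
    rw [h.deriv]; ring
  have hqdd : iteratedDeriv 2 (fun t : ℝ => K * t ^ 4) 0 = 0 := by
    have := iteratedDeriv_quartic 0 0 0 0 K
    simp only [zero_mul, zero_add, mul_zero] at this
    exact this
  set φ : ℝ → ℝ := fun t => g t - K * t ^ 4 with hφ
  have hmax : IsLocalMax φ 0 := by
    filter_upwards [hK] with t ht
    simp only [hφ, h0]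
    simp only [ne_eq, OfNat.ofNat_ne_zero, not_false_eq_true, zero_pow, mul_zero, sub_zero]
    linarith
  have hφd : deriv φ 0 = 0 := hmax.deriv_eq_zero
  have e1 : deriv φ 0 = deriv g 0 - deriv (fun t : ℝ => K * t ^ 4) 0 :=
    deriv_fun_sub (hg.differentiableAt (by norm_num)) (hq2.differentiableAt (by norm_num))
  have e2 : iteratedDeriv 2 φ 0 = iteratedDeriv 2 g 0 - iteratedDeriv 2 (fun t : ℝ => K * t ^ 4) 0 :=
    iteratedDeriv_fun_sub hg hq2
  have hg1 : deriv g 0 = 0 := by rw [hφd, hqd] at e1; linarith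
  refine ⟨hg1, ?_⟩
  by_contra hcon
  push Not at hcon
  have hpos : 0 < iteratedDeriv 2 φ 0 := by rw [e2, hqdd]; linarith
  have hpos' : 0 < deriv (deriv φ) 0 := by
    rw [iteratedDeriv_succ, iteratedDeriv_one] at hpos
    exact hpos
  have hcont : ContinuousAt φ 0 := (hg.sub hq2).continuousAt
  have hmin : IsLocalMin φ 0 := isLocalMin_of_deriv_deriv_pos hpos' hφd hcont
  have hconst : φ =ᶠ[𝓝 0] fun _ => φ 0 := by
    filter_upwards [hmax, hmin] with t h1 h2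
    exact le_antisymm h1 h2
  have := hconst.iteratedDeriv_eq 2
  rw [this] at hpos
  simp [iteratedDeriv_succ] at hpos

theorem line_contDiff (q v : Cn 2) : ContDiff ℝ ∞ (fun t : ℝ => q + (t : ℂ) • v) := by
  have h : (fun t : ℝ => q + (t : ℂ) • v) = fun t : ℝ => q + t • v := by
    funext t
    rw [Complex.coe_smul]
  rw [h]
  fun_prop

theorem not_strongly : ¬ StronglyPseudoconvexAt Egg pt := by
  rintro ⟨U, r, hr, hpos⟩
  have hUn : U ∈ 𝓝 pt := hr.isOpen.mem_nhds hr.mem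
  have hrC : ContDiffAt ℝ ∞ r pt := hr.smooth.contDiffAt hUn
  have hr1 : ContDiffAt ℝ 1 r pt := hrC.of_le (by exact_mod_cast le_top)
  obtain ⟨K, s, hs, hK⟩ := hr1.exists_lipschitzOnWith
  -- the main step
  have key : ∀ w : ℂ, ‖w‖ = 1 → ∀ x : Cn 2, x = !₂[0, w] →
      r pt = 0 ∧ fderiv ℝ r pt x = 0 ∧ iteratedDeriv 2 (fun t : ℝ => r (pt + (t : ℂ) • x)) 0 ≤ 0 := by
    intro w hw x hx
    have hline := line_contDiff pt x
    have hl0 : pt + ((0 : ℝ) : ℂ) • x = pt := by simp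
    have hlc : Tendsto (fun t : ℝ => pt + (t : ℂ) • x) (𝓝 0) (𝓝 pt) := by
      have := hline.continuous.tendsto 0
      rwa [hl0] at this
    -- the curve inside the egg
    set c : ℝ → Cn 2 := fun t => (((1 - t ^ 4 : ℝ) : ℂ)) • pt + (t : ℂ) • x with hc
    have hcc : Continuous c := by
      rw [hc]
      fun_prop
    have hc0 : c 0 = pt := by simp [hc]
    have hct : Tendsto c (𝓝 0) (𝓝 pt) := by
      have := hcc.tendsto 0
      rwa [hc0] at this
    have hin : ∀ t : ℝ, t ≠ 0 → |t| < 1 → c t ∈ Egg := by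
      intro t ht0 ht1
      change rho (c t) < 0
      have e0 : (c t) 0 = ((1 - t ^ 4 : ℝ) : ℂ) := by simp [hc, pt, hx]
      have e1 : (c t) 1 = (t : ℂ) * w := by simp [hc, pt, hx]
      unfold rho
      rw [e0, e1, norm_mul, hw, mul_one, Complex.norm_real, Complex.norm_real, Real.norm_eq_abs,
        Real.norm_eq_abs, sq_abs]
      have h4 : |t| ^ 4 = t ^ 4 := by
        rw [show |t| ^ 4 = (|t| ^ 2) ^ 2 by ring, sq_abs]; ring
      rw [h4]
      have hp : 0 < t ^ 4 := by positivity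
      have hlt : t ^ 4 < 1 := by
        rw [← h4]
        exact pow_lt_one₀ (abs_nonneg t) ht1 (by norm_num)
      nlinarith
    have hdiff : ∀ t : ℝ, ‖(pt + (t : ℂ) • x) - c t‖ = t ^ 4 := by
      intro t
      have : (pt + (t : ℂ) • x) - c t = ((t ^ 4 : ℝ) : ℂ) • pt := by
        simp only [hc]
        rw [Complex.ofReal_sub, Complex.ofReal_one, sub_smul, one_smul]
        abel
      have hn : ‖pt‖ = 1 := by
        rw [EuclideanSpace.norm_eq]; simp [pt]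
      rw [this, norm_smul, hn, mul_one, Complex.norm_real, Real.norm_eq_abs, abs_of_nonneg (by positivity)]
    -- near zero
    have hnear : ∀ᶠ t in 𝓝 (0 : ℝ), c t ∈ U ∧ c t ∈ s ∧ pt + (t : ℂ) • x ∈ s ∧ |t| < 1 := by
      have h1 := hct.eventually (eventually_mem_set.mpr hUn)
      have h2 := hct.eventually (eventually_mem_set.mpr hs)
      have h3 := hlc.eventually (eventually_mem_set.mpr hs)
      have h4 : ∀ᶠ t in 𝓝 (0 : ℝ), |t| < 1 := by
        have : Tendsto (fun t : ℝ => |t|) (𝓝 0) (𝓝 |0|) := continuous_abs.tendsto 0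
        rw [abs_zero] at this
        exact this.eventually (gt_mem_nhds one_pos)
      filter_upwards [h1, h2, h3, h4] with t a b c d using ⟨a, b, c, d⟩
    have hrc : ∀ᶠ t in 𝓝[≠] (0 : ℝ), r (c t) < 0 := by
      filter_upwards [nhdsWithin_le_nhds hnear, self_mem_nhdsWithin] with t ht ht0
      exact (hr.inside _ ht.1).1 (hin t ht0 ht.2.2.2)
    have hrpt : r pt = 0 := by
      apply le_antisymm
      · have : Tendsto (fun t => r (c t)) (𝓝[≠] (0 : ℝ)) (𝓝 (r pt)) :=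
          (hrC.continuousAt.tendsto.comp hct).mono_left nhdsWithin_le_nhds
        exact le_of_tendsto this (hrc.mono fun t ht => ht.le)
      · by_contra hcon
        push Not at hcon
        have : pt ∈ Egg := (hr.inside pt hr.mem).2 hcon
        have h : rho pt < 0 := this
        simp [rho, pt] at h
    have hub : ∀ᶠ t : ℝ in 𝓝 (0 : ℝ), r (pt + (t : ℂ) • x) ≤ (K : ℝ) * t ^ 4 := by
      filter_upwards [hnear] with t ht
      rcases eq_or_ne t 0 with rfl | ht0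
      · rw [hl0, hrpt]; simp
      · have h1 : r (c t) < 0 := (hr.inside _ ht.1).1 (hin t ht0 ht.2.2.2)
        have h2 := hK.dist_le_mul _ ht.2.2.1 _ ht.2.1
        rw [Real.dist_eq, dist_eq_norm, hdiff] at h2
        have := le_abs_self (r (pt + (t : ℂ) • x) - r (c t))
        linarith
    have hcomp : ContDiffAt ℝ 2 (fun t : ℝ => r (pt + (t : ℂ) • x)) 0 := by
      have h1 : ContDiffAt ℝ 2 r (pt + ((0 : ℝ) : ℂ) • x) := by
        rw [hl0]; exact hrC.of_le two_le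
      exact h1.comp (0 : ℝ) ((hline.of_le two_le).contDiffAt)
    obtain ⟨hd1, hd2⟩ := second_le_zero hcomp (by rw [hl0, hrpt]) K hub
    refine ⟨hrpt, ?_, hd2⟩
    have hd : HasFDerivAt r (fderiv ℝ r pt) (pt + ((0 : ℝ) : ℂ) • x) := by
      rw [hl0]
      exact (hr1.differentiableAt (by norm_num)).hasFDerivAt
    have hl : HasDerivAt (fun t : ℝ => pt + (t : ℂ) • x) x 0 := by
      have := ((Complex.ofRealCLM.hasDerivAt (x := (0 : ℝ))).smul_const x).const_add pt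
      simpa using this
    have h1 := hd.comp_hasDerivAt 0 hl
    have := h1.deriv
    rw [Function.comp_def] at this
    rw [← this]
    exact hd1
  obtain ⟨-, a1, a2⟩ := key 1 (by simp) !₂[0, 1] rfl
  obtain ⟨-, b1, b2⟩ := key I (by simp) (I • !₂[0, 1]) (by ext i; fin_cases i <;> simp)
  have hne : (!₂[0, 1] : Cn 2) ≠ 0 := by
    intro h
    have := congrArg (fun x : Cn 2 => x 1) h
    simp at this
  have hlt := hpos _ hne ⟨a1, b1⟩
  unfold levi at hlt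
  have h : (fun t : ℝ => r (pt + ((t : ℂ) * I) • (!₂[0, 1] : Cn 2))) =
      fun t : ℝ => r (pt + (t : ℂ) • (I • (!₂[0, 1] : Cn 2))) := by
    funext t
    rw [smul_smul]
  rw [h] at hlt
  linarith

/-! ### The squeezing function along the sequence -/

/-- the square root with positive real part -/
noncomputable def sq (A : ℂ) : ℂ := exp (log A / 2)

theorem sq_sq {A : ℂ} (hA : A ≠ 0) : sq A ^ 2 = A := by
  unfold sq
  rw [← Complex.exp_nat_mul]
  have : ((2 : ℕ) : ℂ) * (log A / 2) = log A := by push_cast; ring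
  rw [this, Complex.exp_log hA]

theorem sq_re_pos {A : ℂ} (hA : A ∈ slitPlane) : 0 < (sq A).re := by
  obtain ⟨h1, -⟩ := Complex.mem_slitPlane_iff_arg.1 hA
  unfold sq
  rw [Complex.exp_re]
  have him : (log A / 2).im = A.arg / 2 := by
    rw [Complex.div_ofNat_im, Complex.log_im]
  rw [him]
  refine mul_pos (Real.exp_pos _) (Real.cos_pos_of_mem_Ioo ⟨?_, ?_⟩)
  · have := Complex.neg_pi_lt_arg A; linarith
  · have h2 := Complex.arg_le_pi A
    have h3 := lt_of_le_of_ne h2 h1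
    linarith

theorem sq_ne {A : ℂ} : sq A ≠ 0 := Complex.exp_ne_zero _

theorem sq_mul {A B : ℂ} {R : ℝ} (hR : 0 ≤ R) (hA : A ∈ slitPlane) (hB : B ∈ slitPlane)
    (h : A * B = (R : ℂ) ^ 2) : sq A * sq B = R := by
  have hA0 := (Complex.mem_slitPlane_iff_arg.1 hA).2
  have hB0 := (Complex.mem_slitPlane_iff_arg.1 hB).2
  have h2 : (sq A * sq B) ^ 2 = (R : ℂ) ^ 2 := by
    rw [mul_pow, sq_sq hA0, sq_sq hB0, h]
  rcases sq_eq_sq_iff_eq_or_eq_neg.1 h2 with h3 | h3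
  · exact h3
  · exfalso
    have hp := sq_re_pos hA
    have hq := sq_re_pos hB
    have h4 : ((starRingEnd ℂ) (sq A) * (sq A * sq B)).re = Complex.normSq (sq A) * (sq B).re := by
      rw [← mul_assoc, ← Complex.normSq_eq_conj_mul_self]
      simp
    have h5 : ((starRingEnd ℂ) (sq A) * (sq A * sq B)).re = -(R * (sq A).re) := by
      rw [h3]
      simp
      ring
    have h6 : 0 < Complex.normSq (sq A) := Complex.normSq_pos.2 sq_ne
    have h7 : 0 < Complex.normSq (sq A) * (sq B).re := mul_pos h6 hq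
    have h8 : 0 ≤ R * (sq A).re := mul_nonneg hR hp.le
    linarith

theorem sq_differentiable {A : ℂ} (hA : A ∈ slitPlane) : DifferentiableAt ℂ sq A := by
  unfold sq
  exact ((differentiableAt_id.clog hA).div_const 2).cexp

theorem dd {E : Type*} [NormedAddCommGroup E] [NormedSpace ℂ E] {f g : E → ℂ} {x : E}
    (hf : DifferentiableAt ℂ f x) (hg : DifferentiableAt ℂ g x) (h : g x ≠ 0) :
    DifferentiableAt ℂ (fun y => f y / g y) x := by
  simp only [div_eq_mul_inv]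
  exact hf.mul (hg.inv h)

theorem mob2 {z a : ℂ} (h : 1 - a * z ≠ 0) :
    1 + a * ((z - a) / (1 - a * z)) = (1 - a ^ 2) / (1 - a * z) := by
  field_simp
  ring

theorem mob1 {z a : ℂ} (h : 1 - a * z ≠ 0) :
    (z - a) / (1 - a * z) + a = z * (1 + a * ((z - a) / (1 - a * z))) := by
  rw [mob2 h, div_add' _ _ _ h, mul_div_assoc', div_left_inj' h]
  ring

/-- the automorphism of the egg with parameter `a` -/
noncomputable def Phi (a : ℝ) (x : Cn 2) : Cn 2 :=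
  !₂[(x 0 - a) / (1 - a * x 0), x 1 * (√(√(1 - a ^ 2)) : ℝ) / sq (1 - a * x 0)]

theorem re_pos {a : ℝ} (ha : |a| < 1) {z : ℂ} (hz : ‖z‖ < 1) : 0 < (1 - (a : ℂ) * z).re := by
  have h1 : ((a : ℂ) * z).re ≤ ‖(a : ℂ) * z‖ := Complex.re_le_norm _
  have h2 : ‖(a : ℂ) * z‖ < 1 := by
    rw [norm_mul, Complex.norm_real, Real.norm_eq_abs]
    have := abs_nonneg a
    have := norm_nonneg z
    nlinarith
  rw [Complex.sub_re, Complex.one_re]
  linarith

theorem slit {a : ℝ} (ha : |a| < 1) {z : ℂ} (hz : ‖z‖ < 1) : (1 - (a : ℂ) * z) ∈ slitPlane :=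
  Complex.mem_slitPlane_iff.2 (Or.inl (re_pos ha hz))

theorem ne0 {a : ℝ} (ha : |a| < 1) {z : ℂ} (hz : ‖z‖ < 1) : (1 - (a : ℂ) * z) ≠ 0 := by
  intro h
  have := re_pos ha hz
  rw [h] at this
  simp at this

theorem norm_identity (a : ℝ) (z : ℂ) :
    ‖1 - (a : ℂ) * z‖ ^ 2 - ‖z - (a : ℂ)‖ ^ 2 = (1 - a ^ 2) * (1 - ‖z‖ ^ 2) := by
  rw [← Complex.normSq_eq_norm_sq, ← Complex.normSq_eq_norm_sq, ← Complex.normSq_eq_norm_sq]
  simp only [Complex.normSq_apply, Complex.sub_re, Complex.sub_im, Complex.mul_re, Complex.mul_im,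
    Complex.ofReal_re, Complex.ofReal_im, Complex.one_re, Complex.one_im]
  ring

theorem egg_iff (x : Cn 2) : x ∈ Egg ↔ ‖x 0‖ ^ 2 + ‖x 1‖ ^ 4 < 1 := by
  change rho x < 0 ↔ _
  unfold rho
  constructor <;> intro h <;> linarith

theorem egg_norm0 {x : Cn 2} (hx : x ∈ Egg) : ‖x 0‖ < 1 := by
  rw [egg_iff] at hx
  have : 0 ≤ ‖x 1‖ ^ 4 := by positivity
  nlinarith [norm_nonneg (x 0)]

theorem egg_norm1 {x : Cn 2} (hx : x ∈ Egg) : ‖x 1‖ < 1 := by
  rw [egg_iff] at hx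
  by_contra h
  push Not at h
  have h1 : 1 ≤ ‖x 1‖ ^ 4 := one_le_pow₀ h
  nlinarith [sq_nonneg ‖x 0‖]

theorem sq_norm {A : ℂ} (hA : A ≠ 0) : ‖sq A‖ ^ 4 = ‖A‖ ^ 2 := by
  have : ‖sq A‖ ^ 4 = ‖sq A ^ 2‖ ^ 2 := by rw [norm_pow]; ring
  rw [this, sq_sq hA]

theorem abs_sq_lt {a : ℝ} (ha : |a| < 1) : 0 < 1 - a ^ 2 := by
  have := abs_lt.1 ha
  nlinarith

theorem root4 {a : ℝ} (ha : |a| < 1) : √(√(1 - a ^ 2)) ^ 4 = 1 - a ^ 2 := by
  have h := abs_sq_lt ha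
  rw [show √(√(1 - a ^ 2)) ^ 4 = (√(√(1 - a ^ 2)) ^ 2) ^ 2 by ring, Real.sq_sqrt (Real.sqrt_nonneg _),
    Real.sq_sqrt h.le]

theorem Phi_egg {a : ℝ} (ha : |a| < 1) {x : Cn 2} (hx : x ∈ Egg) : Phi a x ∈ Egg := by
  have h0 := egg_norm0 hx
  have hne := ne0 ha h0
  have hpos : 0 < ‖1 - (a : ℂ) * x 0‖ ^ 2 := by
    have := norm_pos_iff.2 hne
    positivity
  rw [egg_iff] at hx ⊢
  have e0 : Phi a x 0 = (x 0 - a) / (1 - a * x 0) := rfl
  have e1 : Phi a x 1 = x 1 * (√(√(1 - a ^ 2)) : ℝ) / sq (1 - a * x 0) := rfl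
  rw [e0, e1, norm_div, norm_div, norm_mul, div_pow, div_pow, sq_norm hne, ← add_div,
    div_lt_one hpos, mul_pow, Complex.norm_real, Real.norm_eq_abs,
    abs_of_nonneg (Real.sqrt_nonneg _), root4 ha]
  have h1 := norm_identity a (x 0)
  have h2 := abs_sq_lt ha
  nlinarith

theorem Phi_differentiable {a : ℝ} (ha : |a| < 1) {x : Cn 2} (hx : ‖x 0‖ < 1) :
    DifferentiableAt ℂ (Phi a) x := by
  have hp : ∀ i : Fin 2, DifferentiableAt ℂ (fun x : Cn 2 => x i) x := fun i =>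
    (EuclideanSpace.proj (𝕜 := ℂ) i : Cn 2 →L[ℂ] ℂ).differentiableAt
  have hne := ne0 ha hx
  have hd : DifferentiableAt ℂ (fun x : Cn 2 => 1 - (a : ℂ) * x 0) x :=
    (differentiableAt_const _).sub ((hp 0).const_mul _)
  rw [differentiableAt_euclidean]
  intro i
  fin_cases i
  · change DifferentiableAt ℂ (fun x : Cn 2 => (x 0 - a) / (1 - a * x 0)) x
    exact dd ((hp 0).sub_const (a : ℂ)) hd hne
  · change DifferentiableAt ℂ
      (fun x : Cn 2 => x 1 * (√(√(1 - a ^ 2)) : ℝ) / sq (1 - a * x 0)) x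
    refine dd ((hp 1).mul_const _) ?_ sq_ne
    exact DifferentiableAt.comp (g := sq) x (sq_differentiable (slit ha hx)) hd

theorem one_add_eq {a : ℝ} (ha : |a| < 1) {z : ℂ} (hz : ‖z‖ < 1) :
    (1 - (a : ℂ) * z) * (1 - ((-a : ℝ) : ℂ) * ((z - a) / (1 - a * z))) = 1 - (a : ℂ) ^ 2 := by
  have hne := ne0 ha hz
  push_cast
  field_simp
  ring

theorem Phi_Phi {a : ℝ} (ha : |a| < 1) {x : Cn 2} (hx : x ∈ Egg) : Phi (-a) (Phi a x) = x := by
  have h0 := egg_norm0 hx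
  have hne := ne0 ha h0
  have ha' : |(-a)| < 1 := by rwa [abs_neg]
  have h1 := egg_norm0 (Phi_egg ha hx)
  have hid := one_add_eq ha h0
  have e0 : Phi a x 0 = (x 0 - a) / (1 - a * x 0) := rfl
  have e1 : Phi a x 1 = x 1 * (√(√(1 - a ^ 2)) : ℝ) / sq (1 - a * x 0) := rfl
  have hne' : (1 - ((-a : ℝ) : ℂ) * Phi a x 0) ≠ 0 := ne0 ha' h1
  have hpos := abs_sq_lt ha
  have hcne : (1 - (a : ℂ) ^ 2) ≠ 0 := by
    have : ((1 - a ^ 2 : ℝ) : ℂ) ≠ 0 := by exact_mod_cast hpos.ne'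
    push_cast at this
    exact this
  ext i
  fin_cases i
  · change (Phi a x 0 - ((-a : ℝ) : ℂ)) / (1 - ((-a : ℝ) : ℂ) * Phi a x 0) = x 0
    rw [div_eq_iff hne', e0]
    push_cast
    rw [neg_mul, sub_neg_eq_add, sub_neg_eq_add]
    exact mob1 hne
  · change Phi a x 1 * (√(√(1 - (-a) ^ 2)) : ℝ) / sq (1 - ((-a : ℝ) : ℂ) * Phi a x 0) = x 1
    have hs : sq (1 - (a : ℂ) * x 0) * sq (1 - ((-a : ℝ) : ℂ) * Phi a x 0) = (√(1 - a ^ 2) : ℝ) := by
      apply sq_mul (Real.sqrt_nonneg _) (slit ha h0) (slit ha' h1)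
      rw [e0, hid, ← Complex.ofReal_pow (√(1 - a ^ 2)), Real.sq_sqrt hpos.le]
      push_cast
      ring
    have hr : (((√(√(1 - a ^ 2)) : ℝ) : ℂ)) ^ 2 = (√(1 - a ^ 2) : ℝ) := by
      rw [← Complex.ofReal_pow, Real.sq_sqrt (Real.sqrt_nonneg _)]
    rw [neg_sq, e1, div_eq_iff sq_ne]
    have hsne : sq (1 - (a : ℂ) * x 0) ≠ 0 := sq_ne
    rw [div_mul_eq_mul_div, div_eq_iff hsne]
    rw [mul_assoc, mul_assoc, mul_comm (sq (1 - ((-a : ℝ) : ℂ) * Phi a x 0)), hs, ← hr]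
    ring

/-- the biholomorphism from the egg into the ball -/
noncomputable def Psi (b : ℝ) (x : Cn 2) : Cn 2 :=
  !₂[(√(1 - b ^ 2) : ℝ) * (x 0 / (√2 : ℝ)) / (1 - b * x 1), (x 1 - b) / (1 - b * x 1)]

/-- its inverse -/
noncomputable def Theta (b : ℝ) (y : Cn 2) : Cn 2 :=
  !₂[(√2 : ℝ) * (√(1 - b ^ 2) : ℝ) * y 0 / (1 + b * y 1), (y 1 + b) / (1 + b * y 1)]

theorem mem_ball_iff (y : Cn 2) {r : ℝ} (hr : 0 ≤ r) : y ∈ ball (0 : Cn 2) r ↔ ‖y 0‖ ^ 2 + ‖y 1‖ ^ 2 < r ^ 2 := by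
  rw [mem_ball_zero_iff, ← sq_lt_sq₀ (norm_nonneg _) hr, EuclideanSpace.norm_sq_eq]
  simp

theorem Psi_ball {b : ℝ} (hb : |b| < 1) {x : Cn 2} (hx : x ∈ Egg) : Psi b x ∈ ball (0 : Cn 2) 1 := by
  have h1 := egg_norm1 hx
  have hne := ne0 hb h1
  have hpos : 0 < ‖1 - (b : ℂ) * x 1‖ ^ 2 := by
    have := norm_pos_iff.2 hne
    positivity
  rw [egg_iff] at hx
  rw [mem_ball_iff _ zero_le_one]
  have e0 : Psi b x 0 = (√(1 - b ^ 2) : ℝ) * (x 0 / (√2 : ℝ)) / (1 - b * x 1) := rfl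
  have e1 : Psi b x 1 = (x 1 - b) / (1 - b * x 1) := rfl
  have h2 := abs_sq_lt hb
  rw [e0, e1, norm_div, norm_div, norm_mul, norm_div, div_pow, div_pow, ← add_div, one_pow,
    div_lt_one hpos, mul_pow, div_pow, Complex.norm_real, Complex.norm_real, Real.norm_eq_abs,
    Real.norm_eq_abs, sq_abs, sq_abs, Real.sq_sqrt h2.le, Real.sq_sqrt (by norm_num)]
  have h3 := norm_identity b (x 1)
  have h4 : ‖x 1‖ ^ 2 < 1 := by nlinarith [norm_nonneg (x 1)]
  have h5 : ‖x 0‖ ^ 2 / 2 < 1 - ‖x 1‖ ^ 2 := by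
    have : ‖x 1‖ ^ 4 = (‖x 1‖ ^ 2) ^ 2 := by ring
    nlinarith [sq_nonneg (‖x 1‖ ^ 2)]
  nlinarith

theorem Psi_differentiable {b : ℝ} (hb : |b| < 1) {x : Cn 2} (hx : ‖x 1‖ < 1) :
    DifferentiableAt ℂ (Psi b) x := by
  have hp : ∀ i : Fin 2, DifferentiableAt ℂ (fun x : Cn 2 => x i) x := fun i =>
    (EuclideanSpace.proj (𝕜 := ℂ) i : Cn 2 →L[ℂ] ℂ).differentiableAt
  have hne := ne0 hb hx
  have hd : DifferentiableAt ℂ (fun x : Cn 2 => 1 - (b : ℂ) * x 1) x :=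
    (differentiableAt_const _).sub ((hp 1).const_mul _)
  rw [differentiableAt_euclidean]
  intro i
  fin_cases i
  · change DifferentiableAt ℂ
      (fun x : Cn 2 => (√(1 - b ^ 2) : ℝ) * (x 0 / (√2 : ℝ)) / (1 - b * x 1)) x
    have hs2 : ((√2 : ℝ) : ℂ) ≠ 0 := by
      have : √2 ≠ 0 := by positivity
      exact_mod_cast this
    exact dd ((dd (hp 0) (differentiableAt_const _) hs2).const_mul _) hd hne
  · change DifferentiableAt ℂ (fun x : Cn 2 => (x 1 - b) / (1 - b * x 1)) x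
    exact dd ((hp 1).sub_const (b : ℂ)) hd hne

theorem ne0' {b : ℝ} (hb : |b| < 1) {z : ℂ} (hz : ‖z‖ < 1) : (1 + (b : ℂ) * z) ≠ 0 := by
  have := ne0 (a := b) hb (z := -z) (by rwa [norm_neg])
  rwa [mul_neg, sub_neg_eq_add] at this

theorem Theta_differentiable {b : ℝ} (hb : |b| < 1) {y : Cn 2} (hy : ‖y 1‖ < 1) :
    DifferentiableAt ℂ (Theta b) y := by
  have hp : ∀ i : Fin 2, DifferentiableAt ℂ (fun x : Cn 2 => x i) y := fun i =>
    (EuclideanSpace.proj (𝕜 := ℂ) i : Cn 2 →L[ℂ] ℂ).differentiableAt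
  have hne := ne0' hb hy
  have hd : DifferentiableAt ℂ (fun x : Cn 2 => 1 + (b : ℂ) * x 1) y :=
    (differentiableAt_const _).add ((hp 1).const_mul _)
  rw [differentiableAt_euclidean]
  intro i
  fin_cases i
  · change DifferentiableAt ℂ
      (fun y : Cn 2 => (√2 : ℝ) * (√(1 - b ^ 2) : ℝ) * y 0 / (1 + b * y 1)) y
    exact dd ((hp 0).const_mul _) hd hne
  · change DifferentiableAt ℂ (fun y : Cn 2 => (y 1 + b) / (1 + b * y 1)) y
    exact dd ((hp 1).add_const (b : ℂ)) hd hne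

theorem Theta_Psi {b : ℝ} (hb : |b| < 1) {x : Cn 2} (hx : x ∈ Egg) : Theta b (Psi b x) = x := by
  have h1 := egg_norm1 hx
  have hne := ne0 hb h1
  have h2 := abs_sq_lt hb
  have hcne : (1 - (b : ℂ) ^ 2) ≠ 0 := by
    have : ((1 - b ^ 2 : ℝ) : ℂ) ≠ 0 := by exact_mod_cast h2.ne'
    push_cast at this
    exact this
  have hs2 : ((√2 : ℝ) : ℂ) ≠ 0 := by
    have : √2 ≠ 0 := by positivity
    exact_mod_cast this
  have hsb : ((√(1 - b ^ 2) : ℝ) : ℂ) ^ 2 = 1 - (b : ℂ) ^ 2 := by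
    rw [← Complex.ofReal_pow, Real.sq_sqrt h2.le]; push_cast; ring
  have e0 : Psi b x 0 = (√(1 - b ^ 2) : ℝ) * (x 0 / (√2 : ℝ)) / (1 - b * x 1) := rfl
  have e1 : Psi b x 1 = (x 1 - b) / (1 - b * x 1) := rfl
  have hid : 1 + (b : ℂ) * Psi b x 1 = (1 - (b : ℂ) ^ 2) / (1 - b * x 1) := by
    rw [e1]; field_simp; ring
  ext i
  fin_cases i
  · change (√2 : ℝ) * (√(1 - b ^ 2) : ℝ) * Psi b x 0 / (1 + b * Psi b x 1) = x 0
    rw [hid, e0, ← hsb]
    have : ((√(1 - b ^ 2) : ℝ) : ℂ) ≠ 0 := by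
      intro h; rw [h] at hsb; apply hcne; rw [← hsb]; simp
    field_simp
  · change (Psi b x 1 + b) / (1 + b * Psi b x 1) = x 1
    have hne2 : 1 + (b : ℂ) * Psi b x 1 ≠ 0 := by rw [hid]; exact div_ne_zero hcne hne
    rw [div_eq_iff hne2, e1]
    exact mob1 hne

theorem Psi_Theta {b : ℝ} (hb : |b| < 1) {y : Cn 2} (hy : ‖y 1‖ < 1) : Psi b (Theta b y) = y := by
  have hne := ne0' hb hy
  have h2 := abs_sq_lt hb
  have hcne : (1 - (b : ℂ) ^ 2) ≠ 0 := by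
    have : ((1 - b ^ 2 : ℝ) : ℂ) ≠ 0 := by exact_mod_cast h2.ne'
    push_cast at this
    exact this
  have hs2 : ((√2 : ℝ) : ℂ) ≠ 0 := by
    have : √2 ≠ 0 := by positivity
    exact_mod_cast this
  have hsb : ((√(1 - b ^ 2) : ℝ) : ℂ) ^ 2 = 1 - (b : ℂ) ^ 2 := by
    rw [← Complex.ofReal_pow, Real.sq_sqrt h2.le]; push_cast; ring
  have e0 : Theta b y 0 = (√2 : ℝ) * (√(1 - b ^ 2) : ℝ) * y 0 / (1 + b * y 1) := rfl
  have e1 : Theta b y 1 = (y 1 + b) / (1 + b * y 1) := rfl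
  have hid : 1 - (b : ℂ) * Theta b y 1 = (1 - (b : ℂ) ^ 2) / (1 + b * y 1) := by
    rw [e1]; field_simp; ring
  ext i
  fin_cases i
  · change (√(1 - b ^ 2) : ℝ) * (Theta b y 0 / (√2 : ℝ)) / (1 - b * Theta b y 1) = y 0
    rw [hid, e0, ← hsb]
    have : ((√(1 - b ^ 2) : ℝ) : ℂ) ≠ 0 := by
      intro h; rw [h] at hsb; apply hcne; rw [← hsb]; simp
    field_simp
  · change (Theta b y 1 - b) / (1 - b * Theta b y 1) = y 1
    have hne2 : 1 - (b : ℂ) * Theta b y 1 ≠ 0 := by rw [hid]; exact div_ne_zero hcne hne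
    rw [div_eq_iff hne2, e1]
    have hne3 : 1 - (-(b : ℂ)) * y 1 ≠ 0 := by rwa [neg_mul, sub_neg_eq_add]
    have := mob1 hne3
    rw [neg_mul, sub_neg_eq_add, sub_neg_eq_add, neg_mul, ← sub_eq_add_neg, ← sub_eq_add_neg] at this
    exact this

theorem Theta_egg {b r : ℝ} (hb : |b| < 1) (hr0 : 0 < r) (hr1 : r < 1)
    (hbr : 1 - b ^ 2 ≤ 2 * (1 - r ^ 2) * (1 - r) ^ 2) {y : Cn 2} (hy : y ∈ ball (0 : Cn 2) r) :
    Theta b y ∈ Egg := by
  rw [mem_ball_iff _ hr0.le] at hy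
  have hy1r : ‖y 1‖ < r := by
    have : 0 ≤ ‖y 0‖ ^ 2 := by positivity
    nlinarith [norm_nonneg (y 1)]
  have hy1 : ‖y 1‖ < 1 := hy1r.trans hr1
  have hne := ne0' hb hy1
  have h2 := abs_sq_lt hb
  set N : ℝ := ‖1 + (b : ℂ) * y 1‖ with hN
  have hNpos : 0 < N := norm_pos_iff.2 hne
  have hNr : 1 - r ≤ N := by
    have h1 : ‖(1 : ℂ)‖ - ‖(b : ℂ) * y 1‖ ≤ N := by
      have := norm_sub_norm_le (1 : ℂ) (-((b : ℂ) * y 1))
      rwa [norm_neg, sub_neg_eq_add] at this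
    rw [norm_one, norm_mul, Complex.norm_real, Real.norm_eq_abs] at h1
    have h3 : |b| * ‖y 1‖ ≤ r := by
      have := abs_nonneg b
      have := norm_nonneg (y 1)
      nlinarith
    linarith
  have hid : N ^ 2 - ‖y 1 + (b : ℂ)‖ ^ 2 = (1 - b ^ 2) * (1 - ‖y 1‖ ^ 2) := by
    have := norm_identity (-b) (y 1)
    push_cast at this
    rw [neg_mul, sub_neg_eq_add, sub_neg_eq_add, neg_sq] at this
    exact this
  rw [egg_iff]
  have e0 : Theta b y 0 = (√2 : ℝ) * (√(1 - b ^ 2) : ℝ) * y 0 / (1 + b * y 1) := rfl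
  have e1 : Theta b y 1 = (y 1 + b) / (1 + b * y 1) := rfl
  rw [e0, e1, norm_div, norm_div, norm_mul, norm_mul, div_pow, div_pow, mul_pow, mul_pow,
    Complex.norm_real, Complex.norm_real, Real.norm_eq_abs, Real.norm_eq_abs, sq_abs, sq_abs,
    Real.sq_sqrt h2.le, Real.sq_sqrt (by norm_num : (0 : ℝ) ≤ 2)]
  rw [← hN]
  set s : ℝ := ‖y 1 + (b : ℂ)‖ with hs
  have hs4 : s ^ 4 = (N ^ 2 - (1 - b ^ 2) * (1 - ‖y 1‖ ^ 2)) ^ 2 := by
    have : s ^ 2 = N ^ 2 - (1 - b ^ 2) * (1 - ‖y 1‖ ^ 2) := by linarith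
    rw [← this]; ring
  have hN4 : N ^ 4 = N ^ 2 * N ^ 2 := by ring
  have hNN : 0 < N ^ 2 := by positivity
  have hgoal : 2 * (1 - b ^ 2) * ‖y 0‖ ^ 2 * N ^ 2 + s ^ 4 < N ^ 4 := by
    rw [hs4]
    have hy0 : ‖y 0‖ ^ 2 < r ^ 2 - ‖y 1‖ ^ 2 := by linarith
    have hq : (1 - r) ^ 2 ≤ N ^ 2 := by
      apply pow_le_pow_left₀ (by linarith) hNr
    have h1 : 0 ≤ 1 - ‖y 1‖ ^ 2 := by nlinarith [norm_nonneg (y 1)]
    have h1' : 1 - ‖y 1‖ ^ 2 ≤ 1 := by nlinarith [norm_nonneg (y 1)]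
    -- (1 - b^2) (1-|y1|^2)^2 ≤ 1 - b^2 ≤ 2 (1-r^2) N^2
    have hA : (1 - b ^ 2) * (1 - ‖y 1‖ ^ 2) ^ 2 ≤ 2 * (1 - r ^ 2) * N ^ 2 := by
      have a1 : (1 - ‖y 1‖ ^ 2) ^ 2 ≤ 1 := by nlinarith
      have a2 : (1 - b ^ 2) * (1 - ‖y 1‖ ^ 2) ^ 2 ≤ 1 - b ^ 2 := by nlinarith
      have a3 : 0 < 1 - r ^ 2 := by nlinarith
      have a4 : 2 * (1 - r ^ 2) * (1 - r) ^ 2 ≤ 2 * (1 - r ^ 2) * N ^ 2 := by nlinarith
      linarith
    have hB : (1 - b ^ 2) * ((1 - b ^ 2) * (1 - ‖y 1‖ ^ 2) ^ 2) ≤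
        (1 - b ^ 2) * (2 * (1 - r ^ 2) * N ^ 2) := mul_le_mul_of_nonneg_left hA h2.le
    have hC : (1 - b ^ 2) * N ^ 2 * ‖y 0‖ ^ 2 < (1 - b ^ 2) * N ^ 2 * (r ^ 2 - ‖y 1‖ ^ 2) :=
      mul_lt_mul_of_pos_left hy0 (by positivity)
    nlinarith
  have h4 : N ^ 4 ≠ 0 := by positivity
  have hNe : N ^ 2 ≠ 0 := by positivity
  have hrew : 2 * (1 - b ^ 2) * ‖y 0‖ ^ 2 / N ^ 2 + s ^ 4 / N ^ 4 =
      (2 * (1 - b ^ 2) * ‖y 0‖ ^ 2 * N ^ 2 + s ^ 4) / N ^ 4 := by
    field_simp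
  rw [hrew, div_lt_one (by positivity)]
  exact hgoal

/-- The general criterion. -/
theorem le_squeezing {n : ℕ} [Nonempty (Fin n)] {D : Set (Cn n)} (hD : IsOpen D) {F G : Cn n → Cn n} {z : Cn n} {r : ℝ}
    (hr : 0 < r) (hF : DifferentiableOn ℂ F D) (hFD : MapsTo F D (ball 0 1)) (hz : F z = 0)
    (hG : ∀ x ∈ D, DifferentiableAt ℂ G (F x)) (hGF : ∀ x ∈ D, G (F x) = x)
    (hr2 : ∀ y ∈ ball (0 : Cn n) r, G y ∈ D ∧ F (G y) = y) : r ≤ squeezing D z := by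
  have hub : ∀ s ∈ {r : ℝ | 0 < r ∧ ∃ F : Cn n → Cn n, IsHolEmbedding D F ∧ MapsTo F D (ball 0 1) ∧
    F z = 0 ∧ ball 0 r ⊆ F '' D}, s ≤ 1 := by
    rintro s ⟨hs0, F', -, hm, -, hsub⟩
    by_contra hcon
    push Not at hcon
    obtain ⟨i⟩ := (inferInstance : Nonempty (Fin n))
    have hmem : (EuclideanSpace.single i (1 : ℂ) : Cn n) ∈ ball (0 : Cn n) s := by
      rw [mem_ball_zero_iff, PiLp.norm_single]
      simpa using hcon
    obtain ⟨x, hx, hxe⟩ := hsub hmem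
    have := hm hx
    rw [hxe, mem_ball_zero_iff, PiLp.norm_single] at this
    simp at this
  refine le_csSup ⟨1, hub⟩ ⟨hr, F, ⟨hF, ?_, ?_⟩, hFD, hz, ?_⟩
  · intro x hx
    have h1 : DifferentiableAt ℂ F x := hF.differentiableAt (hD.mem_nhds hx)
    have h2 := fderiv_comp x (hG x hx) h1
    have h3 : (G ∘ F) =ᶠ[𝓝 x] id := by
      filter_upwards [hD.mem_nhds hx] with y hy using hGF y hy
    rw [h3.fderiv_eq, fderiv_id] at h2
    intro u v huv
    have hu : (fderiv ℂ G (F x)) (fderiv ℂ F x u) = u := by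
      have := congrArg (fun L : Cn n →L[ℂ] Cn n => L u) h2
      simpa using this.symm
    have hv : (fderiv ℂ G (F x)) (fderiv ℂ F x v) = v := by
      have := congrArg (fun L : Cn n →L[ℂ] Cn n => L v) h2
      simpa using this.symm
    rw [← hu, huv, hv]
  · set f : D → (F '' D : Set (Cn n)) := fun x => ⟨F x, mem_image_of_mem F x.2⟩ with hf
    have hGm : ∀ y : (F '' D : Set (Cn n)), G y ∈ D := by
      rintro ⟨y, x, hx, rfl⟩
      rw [hGF x hx]; exact hx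
    set g : (F '' D : Set (Cn n)) → D := fun y => ⟨G y, hGm y⟩ with hg
    have hfc : Continuous f := by
      apply Continuous.subtype_mk
      exact continuousOn_iff_continuous_domRestrict.1 hF.continuousOn
    have hgc : Continuous g := by
      apply Continuous.subtype_mk
      have : ContinuousOn G (F '' D) := by
        rintro y ⟨x, hx, rfl⟩
        exact (hG x hx).continuousAt.continuousWithinAt
      exact continuousOn_iff_continuous_domRestrict.1 this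
    have hleft : Function.LeftInverse g f := fun x => Subtype.ext (hGF x x.2)
    have he : IsEmbedding f := hleft.isEmbedding hgc hfc
    exact IsEmbedding.subtypeVal.comp he
  · intro y hy
    obtain ⟨h1, h2⟩ := hr2 y hy
    exact ⟨G y, h1, h2⟩

/-- the points of the sequence -/
noncomputable def zab (a b : ℝ) : Cn 2 := !₂[(a : ℂ), ((b * √(√(1 - a ^ 2)) : ℝ) : ℂ)]

theorem zab_mem {a b : ℝ} (ha : |a| < 1) (hb : |b| < 1) : zab a b ∈ Egg := by
  rw [egg_iff]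
  have e0 : zab a b 0 = (a : ℂ) := rfl
  have e1 : zab a b 1 = ((b * √(√(1 - a ^ 2)) : ℝ) : ℂ) := rfl
  have h2 := abs_sq_lt ha
  have h3 := abs_sq_lt hb
  have h4 : |b * √(√(1 - a ^ 2))| ^ 4 = (b ^ 2) ^ 2 * (1 - a ^ 2) := by
    rw [show |b * √(√(1 - a ^ 2))| ^ 4 = (|b * √(√(1 - a ^ 2))| ^ 2) ^ 2 by ring, sq_abs,
      mul_pow, mul_pow, ← pow_mul √(√(1 - a ^ 2))]
    rw [show 2 * 2 = 4 by norm_num, root4 ha]
  rw [e0, e1, Complex.norm_real, Complex.norm_real, Real.norm_eq_abs, Real.norm_eq_abs, sq_abs, h4]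
  have h5 : (b ^ 2) ^ 2 < 1 := by nlinarith [sq_nonneg b]
  nlinarith

theorem Phi_zab {a b : ℝ} (ha : |a| < 1) : Phi a (zab a b) = !₂[0, (b : ℂ)] := by
  have e0 : zab a b 0 = (a : ℂ) := rfl
  have e1 : zab a b 1 = ((b * √(√(1 - a ^ 2)) : ℝ) : ℂ) := rfl
  have h2 := abs_sq_lt ha
  have hs : sq (1 - (a : ℂ) * a) = ((√(1 - a ^ 2) : ℝ) : ℂ) := by
    have hz : ‖(a : ℂ)‖ < 1 := by rwa [Complex.norm_real]
    have h1 : (1 : ℂ) ∈ slitPlane := by simp [Complex.mem_slitPlane_iff]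
    have := sq_mul (R := √(1 - a ^ 2)) (Real.sqrt_nonneg _) (slit ha hz) h1 (by
      rw [← Complex.ofReal_pow, Real.sq_sqrt h2.le]
      push_cast
      ring)
    have hone : sq 1 = 1 := by simp [sq]
    rwa [hone, mul_one] at this
  have hne : ((√(1 - a ^ 2) : ℝ) : ℂ) ≠ 0 := by
    have : √(1 - a ^ 2) ≠ 0 := (Real.sqrt_pos.2 h2).ne'
    exact_mod_cast this
  ext i
  fin_cases i
  · change (zab a b 0 - a) / (1 - a * zab a b 0) = 0
    rw [e0]; simp
  · change zab a b 1 * (√(√(1 - a ^ 2)) : ℝ) / sq (1 - a * zab a b 0) = b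
    rw [e0, e1, hs, div_eq_iff hne, ← Complex.ofReal_mul, ← Complex.ofReal_mul]
    congr 1
    rw [mul_assoc, Real.mul_self_sqrt (Real.sqrt_nonneg _)]

theorem squeezing_zab {a b r : ℝ} (ha : |a| < 1) (hb : |b| < 1) (hr0 : 0 < r) (hr1 : r < 1)
    (hbr : 1 - b ^ 2 ≤ 2 * (1 - r ^ 2) * (1 - r) ^ 2) : r ≤ squeezing Egg (zab a b) := by
  have ha' : |(-a)| < 1 := by rwa [abs_neg]
  have key : ∀ x ∈ Egg, Theta b (Psi b (Phi a x)) = Phi a x := fun x hx => Theta_Psi hb (Phi_egg ha hx)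
  refine le_squeezing isOpen_egg (F := fun x => Psi b (Phi a x)) (G := fun y => Phi (-a) (Theta b y))
    hr0 ?_ ?_ ?_ ?_ ?_ ?_
  · intro x hx
    have h1 := Phi_differentiable ha (egg_norm0 hx)
    have h2 := Psi_differentiable hb (egg_norm1 (Phi_egg ha hx))
    exact (h2.comp x h1).differentiableWithinAt
  · intro x hx
    exact Psi_ball hb (Phi_egg ha hx)
  · rw [Phi_zab ha]
    ext i
    fin_cases i
    · change ((√(1 - b ^ 2) : ℝ) : ℂ) * ((0 : ℂ) / (√2 : ℝ)) / (1 - b * b) = 0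
      simp
    · change ((b : ℂ) - b) / (1 - b * b) = 0
      simp
  · intro x hx
    have h1 := Psi_ball hb (Phi_egg ha hx)
    have hy1 : ‖Psi b (Phi a x) 1‖ < 1 := by
      rw [mem_ball_iff _ zero_le_one] at h1
      have : 0 ≤ ‖Psi b (Phi a x) 0‖ ^ 2 := by positivity
      nlinarith [norm_nonneg (Psi b (Phi a x) 1)]
    have h2 := Theta_differentiable hb hy1
    have h3 : ‖Theta b (Psi b (Phi a x)) 0‖ < 1 := by
      rw [key x hx]
      exact egg_norm0 (Phi_egg ha hx)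
    have h4 := Phi_differentiable ha' h3
    exact h4.comp _ h2
  · intro x hx
    rw [key x hx, Phi_Phi ha hx]
  · intro y hy
    have h1 := Theta_egg hb hr0 hr1 hbr hy
    refine ⟨Phi_egg ha' h1, ?_⟩
    have h2 := Phi_Phi ha' h1
    rw [neg_neg] at h2
    have hy1 : ‖y 1‖ < 1 := by
      rw [mem_ball_iff _ hr0.le] at hy
      have : 0 ≤ ‖y 0‖ ^ 2 := by positivity
      nlinarith [norm_nonneg (y 1)]
    rw [h2, Psi_Theta hb hy1]

theorem squeezing_le_one {n : ℕ} [Nonempty (Fin n)] (D : Set (Cn n)) (z : Cn n) : squeezing D z ≤ 1 := by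
  apply Real.sSup_le _ zero_le_one
  rintro s ⟨hs0, F', -, hm, -, hsub⟩
  by_contra hcon
  push Not at hcon
  obtain ⟨i⟩ := (inferInstance : Nonempty (Fin n))
  have hmem : (EuclideanSpace.single i (1 : ℂ) : Cn n) ∈ ball (0 : Cn n) s := by
    rw [mem_ball_zero_iff, PiLp.norm_single]
    simpa using hcon
  obtain ⟨x, hx, hxe⟩ := hsub hmem
  have := hm hx
  rw [hxe, mem_ball_zero_iff, PiLp.norm_single] at this
  simp at this

/-- the parameters of the sequence -/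
noncomputable def par (ν : ℕ) : ℝ := 1 - 1 / ((ν : ℝ) + 2)

theorem par_lt (ν : ℕ) : |par ν| < 1 := by
  unfold par
  have h : 0 < 1 / ((ν : ℝ) + 2) := by positivity
  have h2 : 1 / ((ν : ℝ) + 2) ≤ 1 / 2 := by
    apply one_div_le_one_div_of_le (by norm_num)
    have : (0 : ℝ) ≤ ν := Nat.cast_nonneg ν
    linarith
  rw [abs_lt]
  constructor <;> linarith

theorem par_tendsto : Tendsto par atTop (𝓝 1) := by
  have h1 : Tendsto (fun ν : ℕ => 1 / ((ν : ℝ) + 2)) atTop (𝓝 0) := by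
    have := (tendsto_one_div_add_atTop_nhds_zero_nat (𝕜 := ℝ)).comp (tendsto_add_atTop_nat 1)
    refine this.congr fun n => ?_
    simp only [Function.comp_apply]
    push_cast
    ring
  have := h1.const_sub 1
  rw [sub_zero] at this
  exact this

theorem zab_tendsto : Tendsto (fun ν => zab (par ν) (par ν)) atTop (𝓝 pt) := by
  have hc : Continuous (fun s : ℝ => zab s s) := by
    unfold zab
    fun_prop
  have h := (hc.tendsto 1).comp par_tendsto
  have e : zab 1 1 = pt := by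
    unfold zab pt
    simp
  rw [e] at h
  exact h

theorem squeezing_tendsto : Tendsto (fun ν => squeezing Egg (zab (par ν) (par ν))) atTop (𝓝 1) := by
  have hlow : ∀ r : ℝ, r < 1 → ∀ᶠ ν in atTop, r < squeezing Egg (zab (par ν) (par ν)) := by
    intro r hr
    set s : ℝ := max ((1 + r) / 2) (1 / 2) with hs
    have hs0 : 0 < s := lt_of_lt_of_le (by norm_num) (le_max_right _ _)
    have hs1 : s < 1 := max_lt (by linarith) (by norm_num)
    have hrs : r < s := lt_of_lt_of_le (by linarith) (le_max_left _ _)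
    have hpos : 0 < 2 * (1 - s ^ 2) * (1 - s) ^ 2 := by
      have h1 : 0 < 1 - s ^ 2 := by nlinarith
      have h2 : 0 < 1 - s := by linarith
      positivity
    have ht : Tendsto (fun ν => 1 - par ν ^ 2) atTop (𝓝 0) := by
      have := (par_tendsto.pow 2).const_sub 1
      simpa using this
    filter_upwards [ht.eventually (gt_mem_nhds hpos)] with ν hν
    exact lt_of_lt_of_le hrs (squeezing_zab (par_lt ν) (par_lt ν) hs0 hs1 hν.le)
  rw [tendsto_order]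
  refine ⟨fun r hr => hlow r hr, fun r hr => ?_⟩
  exact Eventually.of_forall fun ν => lt_of_le_of_lt (squeezing_le_one _ _) hr

/-! ### The egg has finite type at all boundary points -/

theorem rho_expand (q x : Cn 2) (hq : rho q = 0) :
    rho x = ‖x 0 - q 0‖ ^ 2 + ‖x 1 ^ 2 - q 1 ^ 2‖ ^ 2 +
      2 * ((starRingEnd ℂ) (q 0) * (x 0 - q 0) +
        (starRingEnd ℂ) (q 1 ^ 2) * (x 1 ^ 2 - q 1 ^ 2)).re := by
  have h : ∀ a b : ℂ, ‖b‖ ^ 2 = ‖a‖ ^ 2 + ‖b - a‖ ^ 2 + 2 * ((starRingEnd ℂ) a * (b - a)).re := by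
    intro a b
    rw [← Complex.normSq_eq_norm_sq, ← Complex.normSq_eq_norm_sq, ← Complex.normSq_eq_norm_sq]
    simp only [Complex.normSq_apply, Complex.sub_re, Complex.sub_im, Complex.mul_re,
      Complex.conj_re, Complex.conj_im]
    ring
  have h4 : ∀ z : ℂ, ‖z‖ ^ 4 = ‖z ^ 2‖ ^ 2 := fun z => by rw [norm_pow]; ring
  have e0 := h (q 0) (x 0)
  have e1 := h (q 1 ^ 2) (x 1 ^ 2)
  have hq' : ‖q 0‖ ^ 2 + ‖q 1 ^ 2‖ ^ 2 = 1 := by
    unfold rho at hq
    rw [h4] at hq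
    linarith
  unfold rho
  rw [h4, e0, e1, Complex.add_re]
  linarith

theorem finiteType_rho (q : Cn 2) (hq : rho q = 0) : FiniteType rho q := by
  refine ⟨4, fun γ hγ hγ0 hord k hk => ?_⟩
  obtain ⟨m, hm⟩ := ENat.ne_top_iff_exists.1 hord
  rw [← hm]
  have hproj : ∀ (F : ℂ → Cn 2) (i : Fin 2), AnalyticAt ℂ F 0 → AnalyticAt ℂ (fun ζ => F ζ i) 0 := by
    intro F i hF
    exact ((EuclideanSpace.proj (𝕜 := ℂ) i : Cn 2 →L[ℂ] ℂ).analyticAt _).comp hF
  obtain ⟨h, hh, hh0, hheq⟩ := (AnalyticAt.analyticOrderAt_eq_natCast (hγ.sub analyticAt_const)).1 hm.symm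
  have hm1 : m ≠ 0 := by
    rintro rfl
    have := hheq.self_of_nhds
    simp only [Pi.sub_apply, hγ0, sub_self, pow_zero, one_smul] at this
    exact hh0 this.symm
  -- lower bound
  have hlow : ∃ c : ℝ, 0 < c ∧ ∀ᶠ ζ : ℂ in 𝓝 0,
      c * ‖ζ‖ ^ (4 * m) ≤ ‖γ ζ 0 - q 0‖ ^ 2 + ‖(γ ζ 1) ^ 2 - q 1 ^ 2‖ ^ 2 := by
    have c0 := (hproj h 0 hh).continuousAt
    have c1 := (hproj h 1 hh).continuousAt
    have e0 : ∀ᶠ ζ : ℂ in 𝓝 0, γ ζ 0 - q 0 = ζ ^ m * h ζ 0 ∧ γ ζ 1 - q 1 = ζ ^ m * h ζ 1 := by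
      filter_upwards [hheq] with ζ hζ
      rw [sub_zero] at hζ
      exact ⟨congrArg (fun x : Cn 2 => x 0) hζ, congrArg (fun x : Cn 2 => x 1) hζ⟩
    have hsm : ∀ᶠ ζ : ℂ in 𝓝 0, ‖ζ‖ < 1 := by
      have := (continuous_norm (E := ℂ)).tendsto 0
      rw [norm_zero] at this
      exact this.eventually (gt_mem_nhds one_pos)
    by_cases hcase : q 1 = 0 ∧ h 0 0 = 0
    · obtain ⟨hq1, hh00⟩ := hcase
      have hh1 : h 0 1 ≠ 0 := by
        intro h1
        apply hh0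
        ext i
        fin_cases i
        · exact hh00
        · exact h1
      have hpos : 0 < ‖h 0 1‖ ^ 4 := by
        have := norm_pos_iff.2 hh1
        positivity
      have ht : Tendsto (fun ζ => ‖h ζ 1‖ ^ 4) (𝓝 0) (𝓝 (‖h 0 1‖ ^ 4)) := (c1.norm.pow 4)
      refine ⟨‖h 0 1‖ ^ 4 / 2, by positivity, ?_⟩
      filter_upwards [e0, ht.eventually (lt_mem_nhds (half_lt_self hpos))] with ζ hζ hζ2
      have h1 : γ ζ 1 = ζ ^ m * h ζ 1 := by rw [← hζ.2, hq1, sub_zero]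
      have h2 : ‖(γ ζ 1) ^ 2 - q 1 ^ 2‖ ^ 2 = ‖ζ‖ ^ (4 * m) * ‖h ζ 1‖ ^ 4 := by
        rw [hq1, h1, zero_pow (two_ne_zero), sub_zero, norm_pow, norm_mul, norm_pow]
        ring
      rw [h2]
      have h3 : 0 ≤ ‖ζ‖ ^ (4 * m) := by positivity
      have h4 : 0 ≤ ‖γ ζ 0 - q 0‖ ^ 2 := by positivity
      nlinarith
    · set L : ℂ → ℝ := fun ζ => ‖h ζ 0‖ ^ 2 + ‖h ζ 1 * (2 * q 1 + ζ ^ m * h ζ 1)‖ ^ 2 with hL
      have hLc : ContinuousAt L 0 := by
        have h1 : ContinuousAt (fun ζ : ℂ => ζ ^ m) 0 := (continuous_pow m).continuousAt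
        have h2 : ContinuousAt (fun ζ : ℂ => h ζ 1 * (2 * q 1 + ζ ^ m * h ζ 1)) 0 :=
          c1.mul (continuousAt_const.add (h1.mul c1))
        exact (c0.norm.pow 2).add (h2.norm.pow 2)
      have hL0 : 0 < L 0 := by
        simp only [hL, zero_pow hm1, zero_mul, add_zero]
        by_cases h00 : h 0 0 = 0
        · have hq1 : q 1 ≠ 0 := fun hq1 => hcase ⟨hq1, h00⟩
          have hh1 : h 0 1 ≠ 0 := by
            intro h1
            apply hh0
            ext i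
            fin_cases i
            · exact h00
            · exact h1
          have : 0 < ‖h 0 1 * (2 * q 1)‖ := norm_pos_iff.2 (mul_ne_zero hh1 (mul_ne_zero two_ne_zero hq1))
          positivity
        · have := norm_pos_iff.2 h00
          positivity
      refine ⟨L 0 / 2, by positivity, ?_⟩
      filter_upwards [e0, hLc.eventually (lt_mem_nhds (half_lt_self hL0)), hsm] with ζ hζ hζ2 hζ3
      have h1 : (γ ζ 1) ^ 2 - q 1 ^ 2 = ζ ^ m * (h ζ 1 * (2 * q 1 + ζ ^ m * h ζ 1)) := by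
        have : γ ζ 1 = q 1 + ζ ^ m * h ζ 1 := by rw [← hζ.2]; ring
        rw [this]; ring
      have h2 : ‖γ ζ 0 - q 0‖ ^ 2 + ‖(γ ζ 1) ^ 2 - q 1 ^ 2‖ ^ 2 = ‖ζ‖ ^ (2 * m) * L ζ := by
        rw [h1, hζ.1, norm_mul, norm_mul (ζ ^ m), norm_pow, hL]
        ring
      rw [h2]
      have h3 : ‖ζ‖ ^ (4 * m) ≤ ‖ζ‖ ^ (2 * m) :=
        pow_le_pow_of_le_one (norm_nonneg _) hζ3.le (by omega)
      have h4 : 0 ≤ ‖ζ‖ ^ (4 * m) := by positivity
      nlinarith
  obtain ⟨c, hc, hlow⟩ := hlow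
  obtain ⟨C, hC0, hC⟩ := hk.exists_pos
  have hC' := hC.bound
  -- the holomorphic part
  set H : ℂ → ℂ := fun ζ => (starRingEnd ℂ) (q 0) * (γ ζ 0 - q 0) +
    (starRingEnd ℂ) (q 1 ^ 2) * (γ ζ 1 ^ 2 - q 1 ^ 2) with hH
  have hHan : AnalyticAt ℂ H 0 :=
    (analyticAt_const.mul ((hproj γ 0 hγ).sub analyticAt_const)).add
      (analyticAt_const.mul (((hproj γ 1 hγ).pow 2).sub analyticAt_const))
  have hH0 : H 0 = 0 := by simp [hH, hγ0]
  obtain ⟨R, hR, hall⟩ := Metric.eventually_nhds_iff.1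
    ((hlow.and hC').and (hHan.eventually_analyticAt))
  have main : ∀ r : ℝ, 0 < r → r < R → c * r ^ (4 * m) ≤ C * r ^ k := by
    intro r hr0 hrR
    have hd : DiffContOnCl ℂ (fun ζ => exp (H ζ)) (ball 0 r) := by
      apply DifferentiableOn.diffContOnCl
      intro ζ hζ
      rw [closure_ball _ hr0.ne'] at hζ
      have : dist ζ 0 < R := lt_of_le_of_lt (mem_closedBall.1 hζ) hrR
      exact ((hall this).2.differentiableAt.cexp).differentiableWithinAt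
    have hb : ∀ ζ ∈ frontier (ball (0 : ℂ) r),
        ‖exp (H ζ)‖ ≤ Real.exp (-((c * r ^ (4 * m) - C * r ^ k) / 2)) := by
      intro ζ hζ
      rw [frontier_ball _ hr0.ne', mem_sphere_zero_iff_norm] at hζ
      have hζR : dist ζ 0 < R := by rw [dist_zero_right, hζ]; exact hrR
      obtain ⟨⟨h1, h2⟩, -⟩ := hall hζR
      rw [hζ] at h1
      rw [Real.norm_eq_abs, norm_pow, norm_norm, hζ] at h2
      have h3 := rho_expand q (γ ζ) hq
      have h4 := le_abs_self (rho (γ ζ))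
      rw [Complex.norm_exp, Real.exp_le_exp]
      change _ = _ + 2 * (H ζ).re at h3
      linarith
    have hfin := Complex.norm_le_of_forall_mem_frontier_norm_le isBounded_ball hd hb
      (subset_closure (mem_ball_self hr0))
    simp only [hH0, Complex.exp_zero, norm_one] at hfin
    have h5 : (0 : ℝ) ≤ -((c * r ^ (4 * m) - C * r ^ k) / 2) := by
      rw [← Real.exp_le_exp, Real.exp_zero]; exact hfin
    linarith
  by_contra hcon
  push Not at hcon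
  have hlt : 4 * m < k := by exact_mod_cast hcon
  obtain ⟨j, rfl⟩ := Nat.exists_eq_add_of_lt hlt
  set r : ℝ := min (R / 2) (min (1 / 2) (c / (2 * C))) with hr
  have hr0 : 0 < r := lt_min (by linarith) (lt_min (by norm_num) (by positivity))
  have hr1 : r < R := lt_of_le_of_lt (min_le_left _ _) (by linarith)
  have hr2 : r ≤ 1 / 2 := (min_le_right _ _).trans (min_le_left _ _)
  have hr3 : r ≤ c / (2 * C) := (min_le_right _ _).trans (min_le_right _ _)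
  have h6 := main r hr0 hr1
  have h7 : r ^ (4 * m + j + 1) = r ^ (4 * m) * (r ^ j * r) := by ring
  rw [h7] at h6
  have h8 : 0 < r ^ (4 * m) := by positivity
  have h9 : r ^ j ≤ 1 := pow_le_one₀ hr0.le (by linarith)
  have h10 : c ≤ C * (r ^ j * r) := by
    have : c * r ^ (4 * m) ≤ (C * (r ^ j * r)) * r ^ (4 * m) := by linarith
    exact le_of_mul_le_mul_right this h8
  have h11 : r * C ≤ c / 2 := by
    have := mul_le_mul_of_nonneg_right hr3 hC0.le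
    have h12 : c / (2 * C) * C = c / 2 := by field_simp
    linarith
  have h13 : C * (r ^ j * r) ≤ C * r := by
    have : r ^ j * r ≤ 1 * r := mul_le_mul_of_nonneg_right h9 hr0.le
    nlinarith
  linarith

/-! ### The theorem -/

theorem levi_pseudoconvex_rho (U : Set (Cn 2)) : LeviPseudoconvexOn rho U :=
  fun q _ _ v _ => levi_rho_nonneg q v

theorem caseA_egg : CaseA Egg pt :=
  ⟨rfl, univ, rho, isLocalDef_rho pt, levi_pseudoconvex_rho _, finiteType_rho pt (by simp [rho, pt])⟩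

theorem caseB_egg : CaseB Egg pt :=
  ⟨le_rfl, univ, rho, isLocalDef_rho pt, levi_pseudoconvex_rho _,
    fun q _ hq => finiteType_rho q hq, ⊥, by simp, by
      intro v hv
      rw [Submodule.mem_bot] at hv
      subst hv
      exact ⟨⟨by simp, by simp⟩, fun h => absurd rfl h⟩⟩

theorem caseC_egg : CaseC Egg pt :=
  ⟨le_rfl, convex_egg, univ, rho, isLocalDef_rho pt, fun q _ hq => finiteType_rho q hq⟩

/-- There is a bounded convex domain `D` in `ℂ²`, and a boundary point `p`, for which all three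
cases (A), (B), (C) of admissibility hold, at which the boundary is not strongly Levi pseudoconvex,
and such that the squeezing function of `D` tends to `1` along a sequence of points of `D` tending
to `p`. -/
theorem result : ∃ (D : Set (Cn 2)) (p : Cn 2), IsOpen D ∧ IsConnected D ∧
    Bornology.IsBounded D ∧ p ∈ frontier D ∧ CaseA D p ∧ CaseB D p ∧ CaseC D p ∧
    (∃ z : ℕ → Cn 2, (∀ ν, z ν ∈ D) ∧ Tendsto z atTop (𝓝 p) ∧
      Tendsto (fun ν => squeezing D (z ν)) atTop (𝓝 1)) ∧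
    ¬ StronglyPseudoconvexAt D p :=
  ⟨Egg, pt, isOpen_egg, isConnected_egg, isBounded_egg, pt_frontier, caseA_egg, caseB_egg,
    caseC_egg, ⟨fun ν => zab (par ν) (par ν), fun ν => zab_mem (par_lt ν) (par_lt ν), zab_tendsto,
      squeezing_tendsto⟩, not_strongly⟩

end Pool.Agent.Results.MP_63facb_an.EggTangentialSequence
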